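import Mathlib
import Pool.Agent.helper67.RG.Spec3

/-!
Row rg:MET (MP_2e0e07_nt): if `ρ` is a potential subquotient of a `V i` then `meet V ρ` has infinite index.
-/

set_option autoImplicit false

namespace Pool.Agent.RG.MET

open Matrix Polynomial Pool.Agent.GO Pool.Agent.AR Pool.Agent.RG

/-- the subgroup of the elements with scalar matrix -/
def scalSub {Γ F : Type*} [Group Γ] [Field F] (ρ : Γ →* Matrix (Fin 2) (Fin 2) F) : Subgroup Γ where
  carrier := {g | ∃ c : F, ρ g = c • (1 : Matrix (Fin 2) (Fin 2) F)}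
  one_mem' := ⟨1, by rw [map_one, one_smul]⟩
  mul_mem' := by
    rintro a b ⟨c, hc⟩ ⟨c', hc'⟩
    refine ⟨c * c', ?_⟩
    rw [map_mul, hc, hc', Matrix.smul_mul, Matrix.one_mul, smul_smul]
  inv_mem' := by
    rintro a ⟨c, hc⟩
    have h1 : ρ a * ρ a⁻¹ = 1 := by rw [← map_mul, mul_inv_cancel, map_one]
    rw [hc, Matrix.smul_mul, Matrix.one_mul] at h1
    have hc0 : c ≠ 0 := by
      intro h0
      rw [h0, zero_smul] at h1
      exact zero_ne_one h1
    refine ⟨c⁻¹, ?_⟩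
    rw [← h1, smul_smul, inv_mul_cancel₀ hc0, one_smul]

theorem mem_scalSub {Γ F : Type*} [Group Γ] [Field F] (ρ : Γ →* Matrix (Fin 2) (Fin 2) F) (g : Γ) :
    g ∈ scalSub ρ ↔ ∃ c : F, ρ g = c • (1 : Matrix (Fin 2) (Fin 2) F) := Iff.rfl

theorem scalSub_normal {Γ F : Type*} [Group Γ] [Field F] (ρ : Γ →* Matrix (Fin 2) (Fin 2) F) :
    (scalSub ρ).Normal := by
  constructor
  rintro h ⟨c, hc⟩ g
  refine ⟨c, ?_⟩
  rw [map_mul, map_mul, hc, Matrix.mul_smul, Matrix.mul_one, Matrix.smul_mul, ← map_mul, mul_inv_cancel,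
    map_one]

/-- the common kernel of the `V i` -/
def kerV {Γ F' : Type*} [Group Γ] [Field F'] {r : ℕ} {n : Fin r → ℕ}
    (V : (i : Fin r) → Γ →* Matrix (Fin (n i)) (Fin (n i)) F') : Subgroup Γ := ⨅ i, (V i).ker

theorem mem_kerV {Γ F' : Type*} [Group Γ] [Field F'] {r : ℕ} {n : Fin r → ℕ}
    (V : (i : Fin r) → Γ →* Matrix (Fin (n i)) (Fin (n i)) F') (g : Γ) :
    g ∈ kerV V ↔ ∀ i, V i g = 1 := by
  unfold kerV
  rw [Subgroup.mem_iInf]
  exact Iff.rfl

/-- on `U` the kernel of the `V i` acts trivially -/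
theorem triv {Γ F F' Ω : Type*} [Group Γ] [Field F] [Field F'] [Field Ω] (j : F →+* Ω)
    (j' : F' →+* Ω) {r : ℕ} {n : Fin r → ℕ}
    (V : (i : Fin r) → Γ →* Matrix (Fin (n i)) (Fin (n i)) F')
    (ρ : Γ →* Matrix (Fin 2) (Fin 2) F) (U : Subgroup Γ) (i : Fin r)
    (hs : IsSubquotient (fun u : U => bc j ρ u) (fun u : U => bc j' (V i) u)) (h : Γ) (hU : h ∈ U)
    (hV : V i h = 1) : ρ h = 1 := by
  obtain ⟨Q, hQ, π, hsurj, heq⟩ := hs
  have h1 : bc j' (V i) h = 1 := by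
    show (V i h).map j' = 1
    rw [hV, Matrix.map_one j' (map_zero j') (map_one j')]
  have h2 : bc j ρ h = 1 := by
    have h3 : ∀ y, bc j ρ h *ᵥ y = y := by
      intro y
      obtain ⟨x, rfl⟩ := hsurj y
      rw [← heq ⟨h, hU⟩ x]
      congr 1
      apply Subtype.ext
      show bc j' (V i) h *ᵥ x.1 = x.1
      rw [h1, Matrix.one_mulVec]
    apply Matrix.ext_of_mulVec_single
    intro k
    rw [h3, Matrix.one_mulVec]
  have h4 : (ρ h).map j = (1 : Matrix (Fin 2) (Fin 2) F).map j := by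
    rw [Matrix.map_one j (map_zero j) (map_one j)]
    exact h2
  exact Matrix.map_injective j.injective h4

theorem MET : MET_stmt := by
  intro Γ F F' Ω _ _ _ _ j j' r n V ρ hSI U hU hs hM
  obtain ⟨i, hs⟩ := hs
  have hN := scalSub_normal ρ
  -- `K₀ ⊓ U ≤ H`
  have h1 : U ⊓ kerV V ≤ scalSub ρ ⊓ kerV V := by
    intro g hg
    refine ⟨⟨1, ?_⟩, hg.2⟩
    rw [one_smul]
    exact triv j j' V ρ U i hs g hg.1 ((mem_kerV V g).1 hg.2 i)
  have h2 : (scalSub ρ).relIndex (kerV V) ≠ 0 := by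
    rw [← Subgroup.inf_relIndex_right]
    have h3 := Subgroup.relIndex_dvd_of_le_left (kerV V) h1
    rw [Subgroup.inf_relIndex_right U] at h3
    have h4 : U.relIndex (kerV V) ≠ 0 := by
      have h5 : (U.subgroupOf (kerV V)).FiniteIndex := inferInstance
      exact h5.index_ne_zero
    exact ne_zero_of_dvd_ne_zero h4 h3
  have h3 : meet V ρ ≤ kerV V ⊔ scalSub ρ := by
    rintro g ⟨h, hV, c, hc⟩
    have e : g = g * h⁻¹ * h := by group
    rw [e]
    apply mul_mem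
    · apply Subgroup.mem_sup_right
      refine ⟨c, ?_⟩
      rw [map_mul, hc, Matrix.smul_mul, ← map_mul, mul_inv_cancel, map_one]
    · apply Subgroup.mem_sup_left
      exact (mem_kerV V h).2 hV
  have h4 : (kerV V ⊔ scalSub ρ).index ≠ 0 :=
    ne_zero_of_dvd_ne_zero hM.index_ne_zero (Subgroup.index_dvd_of_le h3)
  have h5 : (scalSub ρ).relIndex (kerV V ⊔ scalSub ρ) = (scalSub ρ).relIndex (kerV V) :=
    Subgroup.relIndex_sup_right _ _
  have h6 : (scalSub ρ).index ≠ 0 := by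
    rw [← Subgroup.relIndex_mul_index (le_sup_right : scalSub ρ ≤ kerV V ⊔ scalSub ρ), h5]
    exact mul_ne_zero h2 h4
  have h7 := hSI (scalSub ρ) ⟨h6⟩
  have h8 := h7.2 (Submodule.span Ω {(Pi.single 0 1 : Fin 2 → Ω)}) (by
    rintro ⟨g, c, hc⟩ u hu
    have e : bc j ρ g = j c • (1 : Matrix (Fin 2) (Fin 2) Ω) := by
      show (ρ g).map j = _
      rw [hc]
      ext a b
      rw [Matrix.map_apply, Matrix.smul_apply, Matrix.smul_apply, smul_eq_mul, smul_eq_mul, map_mul,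
        Matrix.one_apply, Matrix.one_apply]
      split_ifs
      · rw [map_one]
      · rw [map_zero]
    show bc j ρ g *ᵥ u ∈ _
    rw [e, Matrix.smul_mulVec, Matrix.one_mulVec]
    exact Submodule.smul_mem _ _ hu)
  rcases h8 with h8 | h8
  · have h9 : (Pi.single 0 1 : Fin 2 → Ω) ∈ Submodule.span Ω {(Pi.single 0 1 : Fin 2 → Ω)} :=
      Submodule.mem_span_singleton_self _
    rw [h8, Submodule.mem_bot] at h9
    have := congrFun h9 0
    simp at this
  · have h9 : (Pi.single 1 1 : Fin 2 → Ω) ∈ Submodule.span Ω {(Pi.single 0 1 : Fin 2 → Ω)} := by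
      rw [h8]; trivial
    rw [Submodule.mem_span_singleton] at h9
    obtain ⟨a, ha⟩ := h9
    have := congrFun ha 1
    simp at this

end Pool.Agent.RG.MET
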